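import Mathlib

namespace Pool.Agent.Results.MP_dca5dd_al.LengthBound

variable {n : ℕ} {V : Type} [AddCommGroup V] [Module ℂ V]

/-- `(A, C)`-commutativity of an `n`-ary product. -/
def IsACComm (br : MultilinearMap ℂ (fun _ : Fin n => V) V) (A C : Finset (Fin n)) : Prop :=
  (∀ i ∈ A, ∀ j ∈ A, i ≠ j → ∀ x : Fin n → V, br (x ∘ Equiv.swap i j) = -br x) ∧
  (∀ i ∈ C, ∀ j ∈ C, i ≠ j → ∀ x : Fin n → V, br (x ∘ Equiv.swap i j) = br x)

/-- `IsWord br S w l`: `w` is (the value of) a word of length `l` in `S`. -/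
inductive IsWord (br : MultilinearMap ℂ (fun _ : Fin n => V) V) (S : Finset V) : V → ℕ → Prop
  | gen (s : V) (hs : s ∈ S) : IsWord br S s 1
  | prod (w : Fin n → V) (l : Fin n → ℕ) (h : ∀ i, IsWord br S (w i) (l i)) :
      IsWord br S (br w) (∑ i, l i)

/-- `L_i(S)`: the span of the words of length at most `i`. -/
def Lsp (br : MultilinearMap ℂ (fun _ : Fin n => V) V) (S : Finset V) (i : ℕ) : Submodule ℂ V :=
  Submodule.span ℂ {w | ∃ l ≤ i, IsWord br S w l}

/-- `S` generates: the union of the `L_i(S)` is everything. -/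
def Generates (br : MultilinearMap ℂ (fun _ : Fin n => V) V) (S : Finset V) : Prop :=
  ∀ v : V, ∃ i, v ∈ Lsp br S i

/-- `l(S)`, the least `i ≥ 1` with `L_i(S)` the whole algebra. -/
noncomputable def lenS (br : MultilinearMap ℂ (fun _ : Fin n => V) V) (S : Finset V) : ℕ∞ :=
  ⨅ (i : ℕ) (_ : 1 ≤ i ∧ Lsp br S i = ⊤), (i : ℕ∞)

/-- The length of the algebra. -/
noncomputable def length (br : MultilinearMap ℂ (fun _ : Fin n => V) V) : ℕ∞ :=
  ⨆ (S : Finset V) (_ : Generates br S), lenS br S

/-- `F_N` for `N = 2 ^ (n - a + 1) * 3 * 5 * ⋯ * p_a`: it is `1` for `m ≤ a`, and otherwise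
`(n - a + 1) F (m - 1) + F (m - 2) + ⋯ + F (m - a)`. -/
def fib (n a : ℕ) (m : ℕ) : ℕ :=
  if m ≤ a then 1
  else ∑ s : Fin a, (if s.val = 0 then n - a + 1 else 1) * fib n a (m - (s.val + 1))
termination_by m
decreasing_by omega

theorem fib_succ (n a j : ℕ) (ha : 1 ≤ a) (hj : a ≤ j) :
    fib n a (j + 1) = (n - a) * fib n a j + ∑ s ∈ Finset.range a, fib n a (j - s) := by
  rw [fib, if_neg (by omega)]
  rw [Fin.sum_univ_eq_sum_range
    (fun s => (if s = 0 then n - a + 1 else 1) * fib n a (j + 1 - (s + 1)))]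
  obtain ⟨b, rfl⟩ : ∃ b, a = b + 1 := ⟨a - 1, by omega⟩
  rw [Finset.sum_range_succ', Finset.sum_range_succ']
  simp only [Nat.add_eq_zero_iff, one_ne_zero, and_false, if_false, if_true, one_mul,
    Nat.add_sub_add_right, Nat.sub_zero]
  ring

theorem fib_mono (n a : ℕ) (ha : 1 ≤ a) : Monotone (fib n a) := by
  apply monotone_nat_of_le_succ
  intro j
  by_cases hj : a ≤ j
  · rw [fib_succ n a j ha hj]
    have : fib n a (j - 0) ≤ ∑ s ∈ Finset.range a, fib n a (j - s) :=
      Finset.single_le_sum (f := fun s => fib n a (j - s)) (fun _ _ => Nat.zero_le _)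
        (Finset.mem_range.2 (by omega))
    simp only [Nat.sub_zero] at this
    omega
  · rw [fib, if_pos (by omega), fib, if_pos (by omega)]

theorem fib_pos (n a : ℕ) (ha : 1 ≤ a) (m : ℕ) : 1 ≤ fib n a m := by
  have h := fib_mono n a ha (Nat.zero_le m)
  rwa [fib, if_pos (by omega)] at h

theorem top_sum (F : ℕ → ℕ) (hF : Monotone F) (j : ℕ) : ∀ I : Finset ℕ, (∀ i ∈ I, i < j) →
    ∑ i ∈ I, F (i + 1) ≤ ∑ s ∈ Finset.range I.card, F (j - s) := by
  induction j with
  | zero =>
    intro I hI
    have : I = ∅ := Finset.eq_empty_of_forall_notMem (fun i hi => by simpa using hI i hi)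
    simp [this]
  | succ j ih =>
    intro I hI
    by_cases hj : j ∈ I
    · have h1 := ih (I.erase j) (fun i hi => by
        have := hI i (Finset.mem_of_mem_erase hi)
        have := Finset.ne_of_mem_erase hi
        omega)
      rw [← Finset.add_sum_erase I _ hj, ← Finset.card_erase_add_one hj, Finset.sum_range_succ']
      simp only [Nat.add_sub_add_right, Nat.sub_zero]
      omega
    · refine (ih I (fun i hi => ?_)).trans (Finset.sum_le_sum fun s _ => hF (by omega))
      have := hI i hi
      have : i ≠ j := fun h => hj (h ▸ hi)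
      omega

theorem key_ineq (j : ℕ) (B : Finset (Fin n)) (hB : 1 ≤ B.card) (idx : Fin n → Fin j)
    (hinj : Set.InjOn idx B) :
    ∑ t, fib n B.card (idx t + 1) ≤ fib n B.card (j + 1) := by
  classical
  have hinj' : Set.InjOn (fun t => (idx t : ℕ)) B := fun x hx y hy h => hinj hx hy (Fin.ext h)
  have hcard : (B.image (fun t => (idx t : ℕ))).card = B.card := Finset.card_image_of_injOn hinj'
  have hj : B.card ≤ j := by
    rw [← hcard]
    calc _ ≤ (Finset.range j).card := Finset.card_le_card (fun i hi => by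
          obtain ⟨t, -, rfl⟩ := Finset.mem_image.1 hi
          exact Finset.mem_range.2 (idx t).2)
      _ = j := Finset.card_range j
  rw [fib_succ n _ j hB hj, ← Finset.sum_compl_add_sum B]
  apply Nat.add_le_add
  · calc ∑ t ∈ Bᶜ, fib n B.card (idx t + 1) ≤ ∑ t ∈ Bᶜ, fib n B.card j :=
          Finset.sum_le_sum fun t _ => fib_mono n _ hB (idx t).2
      _ = _ := by simp [Finset.card_compl]
  · have := top_sum _ (fib_mono n _ hB) j (B.image (fun t => (idx t : ℕ))) (fun i hi => by
      obtain ⟨t, -, rfl⟩ := Finset.mem_image.1 hi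
      exact (idx t).2)
    rwa [hcard, Finset.sum_image hinj'] at this

theorem multi_span (br : MultilinearMap ℂ (fun _ : Fin n => V) V) (P : Submodule ℂ V)
    (S : Fin n → Set V) (h : ∀ w : Fin n → V, (∀ t, w t ∈ S t) → br w ∈ P) (x : Fin n → V)
    (hx : ∀ t, x t ∈ Submodule.span ℂ (S t)) : br x ∈ P := by
  classical
  have main : ∀ T : Finset (Fin n), ∀ x : Fin n → V, (∀ t, x t ∈ Submodule.span ℂ (S t)) →
      (∀ t, t ∉ T → x t ∈ S t) → br x ∈ P := by
    intro T
    induction T using Finset.induction_on with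
    | empty => intro x _ h2; exact h x (fun t => h2 t (by simp))
    | insert t0 T ht0 ih =>
      intro x h1 h2
      have hle : Submodule.span ℂ (S t0) ≤ P.comap (br.toLinearMap x t0) := by
        rw [Submodule.span_le]
        intro v hv
        show br (Function.update x t0 v) ∈ P
        apply ih
        · intro t
          by_cases ht : t = t0
          · subst ht; simpa using Submodule.subset_span hv
          · rw [Function.update_of_ne ht]; exact h1 t
        · intro t ht
          by_cases ht' : t = t0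
          · subst ht'; simpa using hv
          · rw [Function.update_of_ne ht']; exact h2 t (by simp [ht, ht'])
      have := hle (h1 t0)
      simpa using this
  exact main Finset.univ x hx (by simp)

theorem Lsp_mono (br : MultilinearMap ℂ (fun _ : Fin n => V) V) (S : Finset V) {i j : ℕ}
    (h : i ≤ j) : Lsp br S i ≤ Lsp br S j :=
  Submodule.span_mono fun _ ⟨l, hl, hw⟩ => ⟨l, hl.trans h, hw⟩

theorem Lsp_prod (br : MultilinearMap ℂ (fun _ : Fin n => V) V) (S : Finset V) (c : Fin n → ℕ)
    (x : Fin n → V) (hx : ∀ t, x t ∈ Lsp br S (c t)) : br x ∈ Lsp br S (∑ t, c t) := by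
  refine multi_span br _ _ ?_ x hx
  intro w hw
  choose l hl hw' using hw
  exact Submodule.subset_span ⟨∑ t, l t, Finset.sum_le_sum fun t _ => hl t, .prod w l hw'⟩

theorem step (br : MultilinearMap ℂ (fun _ : Fin n => V) V) (S : Finset V)
    (hS : Generates br S) (B : Finset (Fin n)) (hB : 1 ≤ B.card)
    (hanti : ∀ i ∈ B, ∀ j ∈ B, i ≠ j → ∀ x : Fin n → V, br (x ∘ Equiv.swap i j) = -br x)
    (j : ℕ) (b : Fin j → V) (hb : ∀ i : Fin j, b i ∈ Lsp br S (fib n B.card (i + 1)))
    (hle : Lsp br S (fib n B.card (j + 1)) ≤ Submodule.span ℂ (Set.range b)) :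
    Submodule.span ℂ (Set.range b) = ⊤ := by
  have hclosed : ∀ x : Fin n → V, (∀ t, x t ∈ Submodule.span ℂ (Set.range b)) →
      br x ∈ Submodule.span ℂ (Set.range b) := by
    intro x hx
    refine multi_span br _ (fun _ => Set.range b) ?_ x hx
    intro w hw
    choose idx hidx using hw
    by_cases hinj : Set.InjOn idx B
    · apply hle
      refine Lsp_mono br S (key_ineq j B hB idx hinj) (Lsp_prod br S _ w fun t => ?_)
      rw [← hidx t]; exact hb _
    · simp only [Set.InjOn, not_forall] at hinj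
      obtain ⟨s, hs, t, ht, he, hne⟩ := hinj
      have h1 := hanti s hs t ht hne w
      have h2 : w ∘ Equiv.swap s t = w := by
        funext u
        apply Equiv.apply_swap_eq_self
        rw [← hidx s, ← hidx t, he]
      rw [h2] at h1
      have h3 : (2 : ℂ) • br w = 0 := by rw [two_smul]; nth_rewrite 1 [h1]; simp
      rw [(smul_eq_zero.1 h3).resolve_left two_ne_zero]
      exact Submodule.zero_mem _
  have hword : ∀ w l, IsWord br S w l → w ∈ Submodule.span ℂ (Set.range b) := by
    intro w l h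
    induction h with
    | gen s hs => exact hle (Submodule.subset_span ⟨1, fib_pos n _ hB _, .gen s hs⟩)
    | prod w l _ ih => exact hclosed w ih
  rw [eq_top_iff]
  intro v _
  obtain ⟨i, hi⟩ := hS v
  refine Submodule.span_le.2 ?_ hi
  rintro w ⟨l, -, hw⟩
  exact hword w l hw

theorem main [FiniteDimensional ℂ V] (br : MultilinearMap ℂ (fun _ : Fin n => V) V) (S : Finset V)
    (hS : Generates br S) (B : Finset (Fin n)) (hB : 1 ≤ B.card)
    (hanti : ∀ i ∈ B, ∀ j ∈ B, i ≠ j → ∀ x : Fin n → V, br (x ∘ Equiv.swap i j) = -br x) :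
    Lsp br S (fib n B.card (Module.finrank ℂ V)) = ⊤ := by
  have hex : ∀ j, j ≤ Module.finrank ℂ V → ∃ b : Fin j → V, LinearIndependent ℂ b ∧
      ∀ i : Fin j, b i ∈ Lsp br S (fib n B.card (i + 1)) := by
    intro j
    induction j with
    | zero => intro _; exact ⟨Fin.elim0, linearIndependent_empty_type, fun i => i.elim0⟩
    | succ j ih =>
      intro hj
      obtain ⟨b, hli, hb⟩ := ih (by omega)
      by_cases hle : Lsp br S (fib n B.card (j + 1)) ≤ Submodule.span ℂ (Set.range b)
      · have h1 := step br S hS B hB hanti j b hb hle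
        have h2 := finrank_span_eq_card hli
        rw [h1, finrank_top, Fintype.card_fin] at h2
        omega
      · obtain ⟨v, hv, hv'⟩ := SetLike.not_le_iff_exists.1 hle
        refine ⟨Fin.snoc b v, linearIndependent_fin_snoc.2 ⟨hli, hv'⟩, fun i => ?_⟩
        refine Fin.lastCases ?_ (fun i => ?_) i
        · simpa using hv
        · simpa using hb i
  obtain ⟨b, hli, hb⟩ := hex _ le_rfl
  rw [eq_top_iff, ← hli.span_eq_top_of_card_eq_finrank' (by simp), Submodule.span_le]
  rintro _ ⟨i, rfl⟩
  exact Lsp_mono br S (fib_mono n _ hB i.2) (hb i)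

theorem result (n : ℕ) (hn : 2 ≤ n) (A C : Finset (Fin n)) (_hAC : Disjoint A C)
    (_hA : A.card ≠ 1) (k : ℕ) (_hk : 1 ≤ k) (V : Type) [AddCommGroup V] [Module ℂ V]
    [FiniteDimensional ℂ V] (hV : Module.finrank ℂ V = k)
    (br : MultilinearMap ℂ (fun _ : Fin n => V) V) (h : IsACComm br A C) :
    length br ≤ (fib n (if A.card = 0 then 1 else A.card) k : ℕ) := by
  refine iSup₂_le fun S hS => ?_
  have : ∃ B : Finset (Fin n), 1 ≤ B.card ∧ B.card = (if A.card = 0 then 1 else A.card) ∧
      ∀ i ∈ B, ∀ j ∈ B, i ≠ j → ∀ x : Fin n → V, br (x ∘ Equiv.swap i j) = -br x := by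
    by_cases h0 : A.card = 0
    · refine ⟨{⟨0, by omega⟩}, by simp, by simp [h0], ?_⟩
      intro i hi j hj hij
      rw [Finset.mem_singleton] at hi hj
      exact absurd (hi.trans hj.symm) hij
    · exact ⟨A, by omega, by simp [h0], h.1⟩
  obtain ⟨B, hB, hc, hanti⟩ := this
  rw [← hc, ← hV]
  exact iInf₂_le _ ⟨fib_pos n _ hB _, main br S hS B hB hanti⟩

end Pool.Agent.Results.MP_dca5dd_al.LengthBound
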